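import Pool.Agent.Run7.h969.Dz.Top
import Pool.Agent.Run7.h32.Dy.WP
import Pool.Agent.Run7.h969.Dy.Fin
import Pool.Agent.Run7.h969.Dz.Crit

/-!
# The dyadic model of the Navier-Stokes equations: Leray-Hopf solutions are regular for `β ≤ 3`

The dyadic model (Katz-Pavlovic, Friedlander-Pavlovic, Cheskidov, Barbato-Morandin-Romito) is

`X_n' = 2^(β (n-1)) X_{n-1}² - 2^(β n) X_n X_{n+1} - ν 4^n X_n`, `n ≥ 0`, `X_{-1} = 0`.

The nonlinear term preserves the energy `∑ X_n²`, and `β = 5 / 2` is the scaling of the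
three-dimensional equations. For `β > 3` there is finite time blow-up (Cheskidov 2008).
-/

set_option autoImplicit false

open MeasureTheory

namespace Run7.h969.Kept.DyadicThreshold

/-- The right hand side of the dyadic model. -/
noncomputable def dyadicRhs (β ν : ℝ) (x : ℕ → ℝ) : ℕ → ℝ
  | 0 => -(x 0 * x 1) - ν * x 0
  | n + 1 => (2 : ℝ) ^ (β * n) * x n ^ 2 - (2 : ℝ) ^ (β * (n + 1)) * (x (n + 1) * x (n + 2))
      - ν * 4 ^ (n + 1) * x (n + 1)

/-- `X` is a (componentwise) solution on `[0, ∞)` with the initial value `x`. -/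
structure IsSolution (β ν : ℝ) (x : ℕ → ℝ) (X : ℕ → ℝ → ℝ) : Prop where
  initial : ∀ n, X n 0 = x n
  continuous : ∀ n, ContinuousOn (X n) (Set.Ici 0)
  equation : ∀ n, ∀ t : ℝ, 0 < t → HasDerivAt (X n) (dyadicRhs β ν (fun k => X k t) n) t

/-- The energy inequality from the time `s`: `X(s)` is square summable and
`∑ X_n(t)² + 2 ν ∫_s^t ∑ 4^n X_n² ≤ ∑ X_n(s)²` for all `t ≥ s`. -/
def EnergyInequality (ν : ℝ) (X : ℕ → ℝ → ℝ) (s : ℝ) : Prop :=
  Summable (fun n => X n s ^ 2) ∧ ∀ t, s ≤ t → ∀ N : ℕ,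
    ∑ n ∈ Finset.range N, X n t ^ 2 + 2 * ν * ∫ r in s..t, ∑ n ∈ Finset.range N, 4 ^ n * X n r ^ 2
      ≤ ∑' n, X n s ^ 2

/-- A Leray-Hopf solution with the initial value `x`: the energy inequality holds from the time
`0` and from almost every positive time. -/
structure IsLerayHopf (β ν : ℝ) (x : ℕ → ℝ) (X : ℕ → ℝ → ℝ) : Prop where
  solution : IsSolution β ν x X
  energy_zero : EnergyInequality ν X 0
  energy_ae : ∀ᵐ s : ℝ, 0 < s → EnergyInequality ν X s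

/-- `X` decays faster than every exponential in `n`, uniformly on `[τ, ∞)` for every `τ > 0`. -/
def SmoothForPositiveTimes (X : ℕ → ℝ → ℝ) : Prop :=
  ∀ τ > 0, ∀ r : ℝ, ∃ K, ∀ (n : ℕ) t, τ ≤ t → (2 : ℝ) ^ (r * n) * |X n t| ≤ K

lemma rhs_eq (β ν : ℝ) (x : ℕ → ℝ) (n : ℕ) : dyadicRhs β ν x n = Run7.h969.Dy.rhs β ν x n := by
  cases n <;> rfl

lemma sol_iff {β ν : ℝ} {x : ℕ → ℝ} {X : ℕ → ℝ → ℝ} :
    IsSolution β ν x X ↔ Run7.h969.Dy.IsDy β ν x X := by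
  constructor
  · intro h
    exact ⟨h.initial, h.continuous, fun n t ht => (h.equation n t ht).congr_deriv (rhs_eq _ _ _ _)⟩
  · intro h
    exact ⟨h.init, h.cont, fun n t ht => (h.ode n t ht).congr_deriv (rhs_eq _ _ _ _).symm⟩

lemma lh_iff {β ν : ℝ} {x : ℕ → ℝ} {X : ℕ → ℝ → ℝ} :
    IsLerayHopf β ν x X ↔ Run7.h969.Dz.LH β ν x X := by
  constructor
  · intro h
    exact ⟨sol_iff.1 h.solution, h.energy_zero, h.energy_ae⟩
  · intro h
    exact ⟨sol_iff.2 h.sol, h.en0, h.en⟩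

theorem stmReal : Run7.h969.Dz.StmReal :=
  Run7.h969.Dz.real_of Run7.h969.Dz.stmC Run7.h969.Dz.stmD Run7.h969.Dz.stmE Run7.h969.Dz.stmE'
    Run7.h969.Dz.stmF Run7.h969.Dz.stmS

/-- Let `β ≤ 3`, `ν > 0`, and let `x` be a square summable real sequence (no sign condition).
1. There is a Leray-Hopf solution with the initial value `x`.
2. All the Leray-Hopf solutions are smooth for positive times.
3. If `x_n = O(2^(-s n))` for some `s > max (0, β - 2)` then there is a Leray-Hopf solution `X`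
   with the energy inequality from every time `t ≥ 0`; it is the only solution with the energy
   inequality from the time `0`, and all the bounds `x_n = O(2^(-r n))`, `r` real, hold
   uniformly in time for `X`.
4. If `x_n ≥ 0` for all `n` then there is exactly one componentwise solution. -/
theorem result (β ν : ℝ) (x : ℕ → ℝ) (hβ : β ≤ 3) (hν : 0 < ν)
    (hx : Summable fun n => x n ^ 2) :
    (∃ X, IsLerayHopf β ν x X) ∧
    (∀ X, IsLerayHopf β ν x X → SmoothForPositiveTimes X) ∧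
    (∀ s : ℝ, 0 < s → β - 2 < s → (∃ K, ∀ n : ℕ, (2 : ℝ) ^ (s * n) * |x n| ≤ K) →
      ∃ X, IsLerayHopf β ν x X ∧ (∀ t, 0 ≤ t → EnergyInequality ν X t) ∧
        (∀ Z, IsSolution β ν x Z → EnergyInequality ν Z 0 → ∀ n t, 0 ≤ t → Z n t = X n t) ∧
        ∀ r : ℝ, (∃ K, ∀ n : ℕ, (2 : ℝ) ^ (r * n) * |x n| ≤ K) →
          ∃ K, ∀ (n : ℕ) t, 0 ≤ t → (2 : ℝ) ^ (r * n) * |X n t| ≤ K) ∧
    ((∀ n, 0 ≤ x n) → ∃ X, IsLerayHopf β ν x X ∧
      ∀ Z, IsSolution β ν x Z → ∀ n t, 0 ≤ t → Z n t = X n t) := by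
  refine ⟨?_, ?_, ?_, ?_⟩
  · obtain ⟨X, hX⟩ := Run7.h969.Dz.exist_lh (β := β) hν hx
    exact ⟨X, lh_iff.2 hX⟩
  · intro X hX τ hτ r
    exact Run7.h969.Dz.lh_smooth stmReal hβ hν (lh_iff.1 hX) r hτ
  · intro s hs hs2 hxs
    obtain ⟨X, hX, hE, hu, hp, -⟩ := stmReal β ν s x hβ hν hs hs2 hxs
    exact ⟨X, ⟨sol_iff.2 hX, hE 0 le_rfl, Filter.Eventually.of_forall fun t ht => hE t ht.le⟩, hE,
      fun Z hZ hZe => hu Z (sol_iff.1 hZ) hZe, hp⟩
  · intro hx0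
    obtain ⟨X, hX⟩ := Run7.h969.Dz.exist_lh (β := β) hν hx
    refine ⟨X, lh_iff.2 hX, fun Z hZ n t ht => ?_⟩
    obtain ⟨W, -, hW, -⟩ := Pool.Agent.Run7.h32.Dy.wp Run7.h969.Dy.final hβ hν hx0 hx
    rw [hW Z (sol_iff.1 hZ) n t ht, hW X hX.sol n t ht]

end Run7.h969.Kept.DyadicThreshold
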