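import Pool.Agent.Run7.h969.VL.Fin

/-!
Closed chains of vortex arcs at the singular points of solutions of the three-dimensional
Navier-Stokes equations: near a singular point, at times arbitrarily close to the blow-up time, the
arcs of the vortex lines inside of the set of intense vorticity form chains which are closed up to
gaps of relative length `ε`, for every `ε > 0` and every orientation of the vortex lines.

`V` is `ℝ³` with the maximum norm, `len` is the Euclidean length, `vort v` is the curl of `v` and
`om v = len (vort v)`. See the claim file for the definitions.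
-/

open MeasureTheory Set Metric
open H459R3.NS Pool.Agent.W268.NS Pool.Agent.Q67.VD
open Pool.Agent.Q85.CL (DSl WSl Sing Blow)
open Pool.Agent.Q85.VL (Arc Chained Orient Kato)

set_option autoImplicit false

namespace Run7.h969.Kept.VortexChains

/-- For all `T₀ < T`, `ε, R > 0` and all thresholds `m ≥ 0` in the Kato class (uniformly in time)
there is a time `t` in `(T₀, T)` such that for all orientations `θ` of the vorticity `ω(t)` near
`a` there is a closed chain of arcs of the curves of `θ ω(t)`, inside of the part of the cube
`‖y - a‖ ≤ R` with `|ω(t, y)| > m(t, y)`: the arcs run from `p i` to `q i`, `i = 0, …, n - 1`,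
`p n = p 0`, and the total length of the gaps from `q i` to `p (i + 1)` is less than `ε` times the
total length of the arcs. -/
def ClosedChains (T : ℝ) (u : ℝ → V → V) (a : V) : Prop :=
  ∀ (T₀ ε R : ℝ) (m : ℝ → V → ℝ), 0 ≤ T₀ → T₀ < T → 0 < ε → 0 < R →
    (∀ t ∈ Ioo T₀ T, Continuous (m t)) → (∀ t ∈ Ioo T₀ T, ∀ y, 0 ≤ m t y) → Kato T₀ T a R m →
    ∃ t ∈ Ioo T₀ T, ∀ θ : V → ℝ, Orient θ a R (vort (u t)) →
      Chained (fun y => θ y • vort (u t) y) {y | ‖y - a‖ ≤ R ∧ m t y < om (u t) y} ε

/-- Let `(u, p)` be a smooth solution of the Navier-Stokes equations with viscosity `ν`, without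
force: on `(0, T) × Ω`, `Ω` open, with finite energy and dissipation and integrable pressure, or
`1`-periodic on `[0, T)`, or on `(0, T) × ℝ³` with finite energy and dissipation and locally
integrable pressure. At each of its singular points (in `Ω`, in the first case) at the time `T`
there are closed chains of vortex arcs. In the second and the third case it has a singular point if
it is unbounded. -/
theorem result (ν T : ℝ) (u : ℝ → V → V) (p : ℝ → V → ℝ) (hν : 0 < ν) :
    (∀ (E : ℝ) (Ω : Set V), DSl ν T E Ω u p → ∀ a ∈ Ω, Sing T u a → ClosedChains T u a) ∧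
    (IsSol ν T u p → ((¬ ∃ B, ∀ t ∈ Ico 0 T, ∀ x, ‖u t x‖ ≤ B) → ∃ a, Sing T u a) ∧
      ∀ a, Sing T u a → ClosedChains T u a) ∧
    ∀ E : ℝ, WSl ν T E u p → (Blow T u → ∃ a, Sing T u a) ∧
      ∀ a, Sing T u a → ClosedChains T u a :=
  Run7.h969.VL.final ν T u p hν

end Run7.h969.Kept.VortexChains
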